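import Pool.Agent.Helper98.EY.StmtsC
import Pool.Agent.Helper86.EY.EVSM

/-!
# Module EVEND: values near the ends of the segment
-/

set_option autoImplicit false

namespace Pool.Agent.Helper98.EX

open Finset MeasureTheory ProbabilityTheory Filter
open scoped Topology ENNReal

theorem st_EVEND (hMOMM : ST_MOMM) : ST_EVEND := by
  intro Ω _ P X θ h hθ0 hθ1 hM ηp hηp
  have := h.prob
  obtain ⟨C, θ', N1, hC, hθθ', hθ'1, hmm⟩ := hMOMM Ω P X θ h hθ0 hθ1 hM
  have hθ'0 : 0 < θ' := hθ0.trans hθθ'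
  have hpow1 : ∀ d : ℕ, θ' ^ d ≤ 1 := fun d => pow_le_one₀ hθ'0.le hθ'1.le
  have hCpow : ∀ d : ℕ, ENNReal.ofReal (C * θ' ^ d) ≤ ENNReal.ofReal C := by
    intro d
    apply ENNReal.ofReal_le_ofReal
    have := hpow1 d
    nlinarith
  obtain ⟨N2, hN2⟩ := evsm_asy (64 * C) (3 / 4) ηp 482 (by norm_num) hηp
  refine ⟨max N1 N2, fun N hN => ?_⟩
  have hNN1 : N1 ≤ N := le_trans (le_max_left _ _) hN
  obtain ⟨hasy, hlog, hN3⟩ := hN2 N (le_trans (le_max_right _ _) hN)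
  obtain ⟨hA, -, -, -⟩ := hmm N hNN1
  have hNpos : (0 : ℝ) < N := by
    have : 0 < N := by omega
    exact_mod_cast this
  obtain ⟨v, hv⟩ : ∃ v : ℝ, v = (N : ℝ) ^ (3 / 4 : ℝ) := ⟨_, rfl⟩
  have hvpos : 0 < v := by rw [hv]; positivity
  obtain ⟨R, hR⟩ : ∃ R : ℝ, R = 3 * Real.log N ^ 241 := ⟨_, rfl⟩
  have hR0 : 0 ≤ R := by rw [hR]; positivity
  have hfl := Nat.floor_le hR0
  obtain ⟨I, hI⟩ : ∃ I : Finset ℕ, I = Finset.range (⌊R⌋₊ + 1) := ⟨_, rfl⟩
  obtain ⟨J, hJ⟩ : ∃ J : Finset ℕ, J = Finset.Ico (N - ⌊R⌋₊) N := ⟨_, rfl⟩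
  have hL241 : (1 : ℝ) ≤ Real.log N ^ 241 := one_le_pow₀ hlog
  have hIcard : (I.card : ℝ) ≤ 4 * Real.log N ^ 241 := by
    rw [hI, Finset.card_range]
    push_cast
    rw [hR] at hfl ⊢
    linarith
  have hJcard : (J.card : ℝ) ≤ 4 * Real.log N ^ 241 := by
    rw [hJ, Nat.card_Ico]
    have h1 : ((N - (N - ⌊R⌋₊) : ℕ) : ℝ) ≤ (⌊R⌋₊ : ℝ) := by
      have : N - (N - ⌊R⌋₊) ≤ ⌊R⌋₊ := by omega
      exact_mod_cast this
    rw [hR] at hfl h1 ⊢
    linarith
  obtain ⟨S1, hS1⟩ : ∃ S : Finset (ℕ × ℕ), S = (I ×ˢ I).filter (fun q => q.1 ≤ q.2) := ⟨_, rfl⟩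
  obtain ⟨S2, hS2⟩ : ∃ S : Finset (ℕ × ℕ),
    S = (I ×ˢ I).filter (fun q => 1 ≤ q.1 ∧ q.1 ≤ q.2) := ⟨_, rfl⟩
  obtain ⟨S3, hS3⟩ : ∃ S : Finset (ℕ × ℕ), S = (J ×ˢ J).filter (fun q => q.1 ≤ q.2) := ⟨_, rfl⟩
  obtain ⟨S4, hS4⟩ : ∃ S : Finset (ℕ × ℕ),
    S = (J ×ˢ J).filter (fun q => 1 ≤ q.1 ∧ q.1 ≤ q.2) := ⟨_, rfl⟩
  have hu1 := evsm_union (P := P) S1
    (fun z y ω => vp (rE (EE X ω)) (mE N (EE X ω)) z y) hvpos (by
      intro q hq
      rw [hS1, Finset.mem_filter] at hq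
      exact ⟨evsm_measVp h N _ _, ((hA q.1 q.2 hq.2).2.1).trans (hCpow _)⟩)
  have hu2 := evsm_union (P := P) S2
    (fun z y ω => vh (rE (EE X ω)) (mE N (EE X ω)) z y) hvpos (by
      intro q hq
      rw [hS2, Finset.mem_filter] at hq
      exact ⟨evsm_measVh h N _ _, ((hA q.1 q.2 hq.2.2).2.2 hq.2.1).trans (hCpow _)⟩)
  have hu3 := evsm_union (P := P) S3
    (fun z y ω => vp (rE (EE X ω)) (mE N (EE X ω)) z y) hvpos (by
      intro q hq
      rw [hS3, Finset.mem_filter] at hq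
      exact ⟨evsm_measVp h N _ _, ((hA q.1 q.2 hq.2).2.1).trans (hCpow _)⟩)
  have hu4 := evsm_union (P := P) S4
    (fun z y ω => vh (rE (EE X ω)) (mE N (EE X ω)) z y) hvpos (by
      intro q hq
      rw [hS4, Finset.mem_filter] at hq
      exact ⟨evsm_measVh h N _ _, ((hA q.1 q.2 hq.2.2).2.2 hq.2.1).trans (hCpow _)⟩)
  have hsub : {ω | ¬ (EndL N (rE (EE X ω)) (mE N (EE X ω)) 0 ∧
      EndR N (rE (EE X ω)) (mE N (EE X ω)) N)} ⊆
      ({ω | ∃ q ∈ S1, v < vp (rE (EE X ω)) (mE N (EE X ω)) q.1 q.2} ∪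
      {ω | ∃ q ∈ S2, v < vh (rE (EE X ω)) (mE N (EE X ω)) q.1 q.2}) ∪
      ({ω | ∃ q ∈ S3, v < vp (rE (EE X ω)) (mE N (EE X ω)) q.1 q.2} ∪
      {ω | ∃ q ∈ S4, v < vh (rE (EE X ω)) (mE N (EE X ω)) q.1 q.2}) := by
    intro ω hω
    by_contra hcon
    apply hω
    rw [Set.mem_union, not_or, Set.mem_union, not_or, Set.mem_union, not_or] at hcon
    obtain ⟨⟨hc1, hc2⟩, ⟨hc3, hc4⟩⟩ := hcon
    rw [Set.mem_ofPred_eq] at hc1 hc2 hc3 hc4
    push Not at hc1 hc2 hc3 hc4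
    constructor
    · intro z y _ hzy hy
      rw [Nat.cast_zero, zero_add, ← hR] at hy
      have hy2 : y ≤ ⌊R⌋₊ := Nat.le_floor hy
      have hmem : (z, y) ∈ I ×ˢ I := by
        rw [Finset.mem_product, hI, Finset.mem_range, Finset.mem_range]
        constructor <;> dsimp only <;> omega
      rw [← hv]
      constructor
      · exact hc1 (z, y) (by rw [hS1, Finset.mem_filter]; exact ⟨hmem, hzy⟩)
      · intro hz
        exact hc2 (z, y) (by rw [hS2, Finset.mem_filter]; exact ⟨hmem, hz, hzy⟩)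
    · intro z y hzy hyN hz
      rw [← hR] at hz
      have hz2 : N - z ≤ ⌊R⌋₊ := by
        apply Nat.le_floor
        rw [Nat.cast_sub (by omega)]
        linarith
      have hmem : (z, y) ∈ J ×ˢ J := by
        rw [Finset.mem_product, hJ, Finset.mem_Ico, Finset.mem_Ico]
        refine ⟨⟨?_, ?_⟩, ⟨?_, ?_⟩⟩ <;> dsimp only <;> omega
      rw [← hv]
      constructor
      · intro hz1
        exact hc4 (z, y) (by rw [hS4, Finset.mem_filter]; exact ⟨hmem, hz1, hzy⟩)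
      · intro _
        exact hc3 (z, y) (by rw [hS3, Finset.mem_filter]; exact ⟨hmem, hzy⟩)
  refine (measure_mono hsub).trans ((measure_union_le _ _).trans ?_)
  refine (add_le_add ((measure_union_le _ _).trans (add_le_add hu1 hu2))
    ((measure_union_le _ _).trans (add_le_add hu3 hu4))).trans ?_
  rw [← ENNReal.ofReal_add (by positivity) (by positivity),
    ← ENNReal.ofReal_add (by positivity) (by positivity),
    ← ENNReal.ofReal_add (by positivity) (by positivity)]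
  apply ENNReal.ofReal_le_ofReal
  have hc : ∀ (K : Finset ℕ) (S : Finset (ℕ × ℕ)), (K.card : ℝ) ≤ 4 * Real.log N ^ 241 →
      S ⊆ K ×ˢ K → (S.card : ℝ) ≤ 16 * Real.log N ^ 482 := by
    intro K S hK hS
    have h1 : (S.card : ℝ) ≤ K.card * K.card := by
      have := Finset.card_le_card hS
      rw [Finset.card_product] at this
      exact_mod_cast this
    calc (S.card : ℝ) ≤ K.card * K.card := h1
      _ ≤ (4 * Real.log N ^ 241) * (4 * Real.log N ^ 241) :=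
          mul_le_mul hK hK (by positivity) (by positivity)
      _ = 16 * Real.log N ^ 482 := by
          rw [show (482 : ℕ) = 241 + 241 from rfl, pow_add]
          ring
  have h1 := hc I S1 hIcard (by rw [hS1]; exact Finset.filter_subset _ _)
  have h2 := hc I S2 hIcard (by rw [hS2]; exact Finset.filter_subset _ _)
  have h3 := hc J S3 hJcard (by rw [hS3]; exact Finset.filter_subset _ _)
  have h4 := hc J S4 hJcard (by rw [hS4]; exact Finset.filter_subset _ _)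
  have h5 : 0 < C / v := by positivity
  calc (S1.card : ℝ) * (C / v) + S2.card * (C / v) + (S3.card * (C / v) + S4.card * (C / v))
      = ((S1.card : ℝ) + S2.card + S3.card + S4.card) * (C / v) := by ring
    _ ≤ (64 * Real.log N ^ 482) * (C / v) := by
        apply mul_le_mul_of_nonneg_right _ h5.le
        linarith
    _ = 64 * C * Real.log N ^ 482 / v := by ring
    _ ≤ ηp := by rw [hv]; exact hasy

end Pool.Agent.Helper98.EX
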