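import Pool.Agent.Helper98.EY.StmtsC
import Pool.Agent.Helper86.EY.EVSM

/-!
# Module EVNS: auxiliary interfaces
-/

set_option autoImplicit false

namespace Pool.Agent.Helper98.EX

open Finset MeasureTheory ProbabilityTheory Filter
open scoped Topology ENNReal

theorem st_EVNS (hMOMM : ST_MOMM) : ST_EVNS := by
  intro Ω _ P X θ h hθ0 hθ1 hM ηp γ hηp hγ
  have := h.prob
  obtain ⟨C, θ', N1, hC, hθθ', hθ'1, hmm⟩ := hMOMM Ω P X θ h hθ0 hθ1 hM
  have hθ'0 : 0 < θ' := hθ0.trans hθθ'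
  have hpow1 : ∀ d : ℕ, θ' ^ d ≤ 1 := fun d => pow_le_one₀ hθ'0.le hθ'1.le
  have hCpow : ∀ d : ℕ, ENNReal.ofReal (C * θ' ^ d) ≤ ENNReal.ofReal C := by
    intro d
    apply ENNReal.ofReal_le_ofReal
    have := hpow1 d
    nlinarith
  obtain ⟨K, hK⟩ : ∃ K : ℝ, K = C * (1 / (1 - θ')) := ⟨_, rfl⟩
  have hKpos : 0 < K := by
    rw [hK]
    have : 0 < 1 - θ' := by linarith
    positivity
  obtain ⟨N2, hN2⟩ := evsm_asy (72 * C) (γ / 10) (ηp / 2) 4 (by positivity) (by positivity)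
  refine ⟨4 * (θ' + 1) * K / ηp, max N1 N2, by positivity, fun N w x0 hN hx1 hx2 hw => ?_⟩
  have hNN1 : N1 ≤ N := le_trans (le_max_left _ _) hN
  obtain ⟨hasy, hlog, hN3⟩ := hN2 N (le_trans (le_max_right _ _) hN)
  obtain ⟨hA, -, -, -⟩ := hmm N hNN1
  have hNpos : (0 : ℝ) < N := by
    have : 0 < N := by omega
    exact_mod_cast this
  obtain ⟨v, hv⟩ : ∃ v : ℝ, v = (N : ℝ) ^ (γ / 10) := ⟨_, rfl⟩
  have hvpos : 0 < v := by rw [hv]; positivity
  obtain ⟨I, hI⟩ : ∃ I : Finset ℕ, I = Finset.Ico (x0 - 3 * w) (x0 + 3 * w) := ⟨_, rfl⟩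
  have hIcard : I.card = 6 * w := by
    rw [hI, Nat.card_Ico]; omega
  obtain ⟨S1, hS1⟩ : ∃ S : Finset (ℕ × ℕ), S = (I ×ˢ I).filter (fun q => q.1 ≤ q.2) := ⟨_, rfl⟩
  have hu1 := evsm_union (P := P) S1
    (fun z y ω => RR (rE (EE X ω)) (mE N (EE X ω)) z y) hvpos (by
      intro q hq
      rw [hS1, Finset.mem_filter] at hq
      exact ⟨evsm_measX h N _ _, ((hA q.1 q.2 hq.2).1).trans (hCpow _)⟩)
  have hu2 := evsm_union (P := P) S1
    (fun z y ω => vp (rE (EE X ω)) (mE N (EE X ω)) z y) hvpos (by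
      intro q hq
      rw [hS1, Finset.mem_filter] at hq
      exact ⟨evsm_measVp h N _ _, ((hA q.1 q.2 hq.2).2.1).trans (hCpow _)⟩)
  -- the sum
  have hE1 : ∫⁻ ω, ENNReal.ofReal (∑ z ∈ Finset.Ico (x0 - 3 * w) x0, ∑ x ∈ ({x0} : Finset ℕ),
      RR (rE (EE X ω)) (mE N (EE X ω)) z x) ∂P ≤ ENNReal.ofReal (θ' * K) := by
    refine (evsm_dsum (P := P) (Finset.Ico (x0 - 3 * w) x0) (fun _ => ({x0} : Finset ℕ))
      (fun z x ω => RR (rE (EE X ω)) (mE N (EE X ω)) z x) (fun z x => C * θ' ^ (x - z)) ?_).trans ?_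
    · intro z hz x hx
      rw [Finset.mem_Ico] at hz
      rw [Finset.mem_singleton] at hx
      subst hx
      exact ⟨evsm_measX h N _ _, fun ω => evsm_RR_nonneg h N _ _ ω, by positivity,
        (hA z x hz.2.le).1⟩
    · apply ENNReal.ofReal_le_ofReal
      simp only [Finset.sum_singleton]
      rw [← Finset.mul_sum]
      have h2 : ∑ z ∈ Finset.Ico (x0 - 3 * w) x0, θ' ^ (x0 - z) =
          ∑ d ∈ Finset.range (3 * w), θ' ^ (d + 1) := by
        rw [Finset.sum_Ico_eq_sum_range]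
        have e1 : x0 - (x0 - 3 * w) = 3 * w := by omega
        rw [e1, ← Finset.sum_range_reflect]
        apply Finset.sum_congr rfl
        intro d hd
        rw [Finset.mem_range] at hd
        congr 1
        omega
      rw [h2]
      have h3 : ∑ d ∈ Finset.range (3 * w), θ' ^ (d + 1) =
          θ' * ∑ d ∈ Finset.range (3 * w), θ' ^ d := by
        rw [Finset.mul_sum]
        apply Finset.sum_congr rfl
        intro d _
        ring
      rw [h3, hK]
      have h4 := evsm_geom θ' hθ'0 hθ'1 (3 * w)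
      have h5 : C * (θ' * ∑ d ∈ Finset.range (3 * w), θ' ^ d) ≤ C * (θ' * (1 / (1 - θ'))) :=
        mul_le_mul_of_nonneg_left (mul_le_mul_of_nonneg_left h4 hθ'0.le) hC.le
      linarith
  have hE2 : ∫⁻ ω, ENNReal.ofReal (∑ z ∈ ({x0} : Finset ℕ), ∑ x ∈ Finset.Ico x0 (x0 + 3 * w),
      RR (rE (EE X ω)) (mE N (EE X ω)) z x) ∂P ≤ ENNReal.ofReal K := by
    refine (evsm_dsum (P := P) ({x0} : Finset ℕ) (fun _ => Finset.Ico x0 (x0 + 3 * w))
      (fun z x ω => RR (rE (EE X ω)) (mE N (EE X ω)) z x) (fun z x => C * θ' ^ (x - z)) ?_).trans ?_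
    · intro z hz x hx
      rw [Finset.mem_Ico] at hx
      rw [Finset.mem_singleton] at hz
      subst hz
      exact ⟨evsm_measX h N _ _, fun ω => evsm_RR_nonneg h N _ _ ω, by positivity,
        (hA z x hx.1).1⟩
    · apply ENNReal.ofReal_le_ofReal
      simp only [Finset.sum_singleton]
      rw [← Finset.mul_sum, Finset.sum_Ico_eq_sum_range, hK]
      apply mul_le_mul_of_nonneg_left _ hC.le
      have h2 : ∀ k, x0 + k - x0 = k := fun k => by omega
      simp only [h2]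
      exact evsm_geom θ' hθ'0 hθ'1 _
  have hm1 : Measurable (fun ω => ∑ z ∈ Finset.Ico (x0 - 3 * w) x0, ∑ x ∈ ({x0} : Finset ℕ),
      RR (rE (EE X ω)) (mE N (EE X ω)) z x) :=
    Finset.measurable_fun_sum _ fun y _ => Finset.measurable_fun_sum _ fun z _ =>
      evsm_measX h N y z
  have hm2 : Measurable (fun ω => ∑ z ∈ ({x0} : Finset ℕ), ∑ x ∈ Finset.Ico x0 (x0 + 3 * w),
      RR (rE (EE X ω)) (mE N (EE X ω)) z x) :=
    Finset.measurable_fun_sum _ fun z _ => Finset.measurable_fun_sum _ fun y _ =>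
      evsm_measX h N z y
  have hv1 : 0 < 4 * θ' * K / ηp := by positivity
  have hv2 : 0 < 4 * K / ηp := by positivity
  have hM1 := evsm_markov hm1 hv1 hE1
  have hM2 := evsm_markov hm2 hv2 hE2
  have hval1 : θ' * K / (4 * θ' * K / ηp) = ηp / 4 := by field_simp
  have hval2 : K / (4 * K / ηp) = ηp / 4 := by field_simp
  rw [hval1] at hM1
  rw [hval2] at hM2
  have hsub : {ω | ¬ NearS N (rE (EE X ω)) (mE N (EE X ω)) x0 w γ (4 * (θ' + 1) * K / ηp)} ⊆
      ({ω | ∃ q ∈ S1, v < RR (rE (EE X ω)) (mE N (EE X ω)) q.1 q.2} ∪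
      {ω | ∃ q ∈ S1, v < vp (rE (EE X ω)) (mE N (EE X ω)) q.1 q.2}) ∪
      ({ω | 4 * θ' * K / ηp < ∑ z ∈ Finset.Ico (x0 - 3 * w) x0, ∑ x ∈ ({x0} : Finset ℕ),
        RR (rE (EE X ω)) (mE N (EE X ω)) z x} ∪
      {ω | 4 * K / ηp < ∑ z ∈ ({x0} : Finset ℕ), ∑ x ∈ Finset.Ico x0 (x0 + 3 * w),
        RR (rE (EE X ω)) (mE N (EE X ω)) z x}) := by
    intro ω hω
    by_contra hcon
    apply hω
    rw [Set.mem_union, not_or, Set.mem_union, not_or, Set.mem_union, not_or] at hcon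
    obtain ⟨⟨hc1, hc2⟩, ⟨hc3, hc4⟩⟩ := hcon
    rw [Set.mem_ofPred_eq] at hc1 hc2 hc3 hc4
    push Not at hc1 hc2 hc3 hc4
    refine ⟨?_, ?_, ?_⟩
    · intro z x h1 h2 h3
      rw [← hv]
      refine hc1 (z, x) ?_
      rw [hS1, Finset.mem_filter, Finset.mem_product, hI, Finset.mem_Ico, Finset.mem_Ico]
      refine ⟨⟨⟨?_, ?_⟩, ⟨?_, ?_⟩⟩, ?_⟩ <;> dsimp only <;> omega
    · intro b h1 h2
      have h3 := hc2 (b - 1, b - 1) (by
        rw [hS1, Finset.mem_filter, Finset.mem_product, hI, Finset.mem_Ico]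
        refine ⟨⟨⟨?_, ?_⟩, ⟨?_, ?_⟩⟩, ?_⟩ <;> dsimp only <;> omega)
      have h4 : vp (rE (EE X ω)) (mE N (EE X ω)) (b - 1) (b - 1) = 1 / X (b - 1) ω := by
        simp [vp, RR, rE, EE]
      dsimp only at h3
      rw [h4] at h3
      have h5 := (h.rng (b - 1) ω).1
      rw [div_le_iff₀ h5] at h3
      show (N : ℝ) ^ (-(γ / 10)) ≤ X (b - 1) ω
      rw [Real.rpow_neg hNpos.le, ← hv, inv_le_iff_one_le_mul₀ hvpos, mul_comm]
      linarith
    · simp only [Finset.sum_singleton] at hc3 hc4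
      have e : 4 * (θ' + 1) * K / ηp = 4 * θ' * K / ηp + 4 * K / ηp := by ring
      rw [e]
      exact add_le_add hc3 hc4
  refine (measure_mono hsub).trans ((measure_union_le _ _).trans ?_)
  refine (add_le_add ((measure_union_le _ _).trans (add_le_add hu1 hu2))
    ((measure_union_le _ _).trans (add_le_add hM1 hM2))).trans ?_
  rw [← ENNReal.ofReal_add (by positivity) (by positivity),
    ← ENNReal.ofReal_add (by positivity) (by positivity),
    ← ENNReal.ofReal_add (by positivity) (by positivity)]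
  apply ENNReal.ofReal_le_ofReal
  have h1 : (S1.card : ℝ) ≤ 36 * Real.log N ^ 4 := by
    have h1 : (S1.card : ℝ) ≤ (6 * w) * (6 * w) := by
      have := Finset.card_le_card (show S1 ⊆ I ×ˢ I by rw [hS1]; exact Finset.filter_subset _ _)
      rw [Finset.card_product, hIcard] at this
      exact_mod_cast this
    have h2 : (6 * w : ℝ) ≤ 6 * Real.log N ^ 2 := by linarith
    calc (S1.card : ℝ) ≤ (6 * w) * (6 * w) := h1
      _ ≤ (6 * Real.log N ^ 2) * (6 * Real.log N ^ 2) :=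
          mul_le_mul h2 h2 (by positivity) (by positivity)
      _ = _ := by ring
  have h3 : 0 < C / v := by positivity
  have h6 : (S1.card : ℝ) * (C / v) + S1.card * (C / v) ≤ ηp / 2 := by
    calc (S1.card : ℝ) * (C / v) + S1.card * (C / v) = (2 * (S1.card : ℝ)) * (C / v) := by ring
      _ ≤ (72 * Real.log N ^ 4) * (C / v) := by
          apply mul_le_mul_of_nonneg_right _ h3.le
          linarith
      _ = 72 * C * Real.log N ^ 4 / v := by ring
      _ ≤ ηp / 2 := by rw [hv]; exact hasy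
  linarith

end Pool.Agent.Helper98.EX
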