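import Pool.Agent.Helper98.EY.StmtsC
import Pool.Agent.Helper11.EX.MAIN

set_option autoImplicit false

/-!
MP_157eb8_pr, module MAIN4: the final theorem from the two cases, for every ballistic law
(same reduction as module MAIN).
-/

namespace Pool.Agent.Helper98.EX

open Finset MeasureTheory ProbabilityTheory Filter
open scoped Topology

theorem st_MAIN4 (hN : ST_MAINN4) (hNN : ST_MAINNN) (hS : ST_STC) : ST_MAIN4 := by
  intro Ω _ P X k hX hM hk h1 h2
  have hrng : ∀ ω x, 0 < EE X ω x ∧ EE X ω x ≤ 1 := fun ω x => hX.rng x ω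
  refine ⟨fun N hN1 ω => (hS N (k N) (EE X ω) hN1 (hk N) (hrng ω)).2.1, ?_⟩
  intro π hπ ε δ hε hε2 hδ
  have hC : CutGoal P X := by
    by_cases hc : ∀ t : ℝ, 0 < t → P {ω | X 0 ω < 1 / 2 + t} ≠ 0
    · exact hN Ω P X hX hM hc
    · push Not at hc
      obtain ⟨t, ht, hPt⟩ := hc
      exact hNN Ω P X t hX ht hPt
  obtain ⟨c, hc, N1, hN1⟩ := main_dens k hk h1 h2
  rw [ENNReal.tendsto_nhds_zero]
  intro e he
  obtain ⟨η, hη, hηe⟩ : ∃ η : ℝ, 0 < η ∧ ENNReal.ofReal η ≤ e := by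
    by_cases h : e = ⊤
    · exact ⟨1, one_pos, by rw [h]; exact le_top⟩
    · exact ⟨e.toReal, ENNReal.toReal_pos he.ne' h, by rw [ENNReal.ofReal_toReal h]⟩
  obtain ⟨N0, hN0⟩ := hC c ε (min (δ / 15) (1 / 2)) η hc hε hε2
    (lt_min (by linarith) (by norm_num)) ((min_le_right _ _).trans_lt (by norm_num)) hη
  filter_upwards [eventually_ge_atTop (max (max N0 N1) 1)] with N hNN0
  have hN0' : N0 ≤ N := ((le_max_left _ _).trans (le_max_left _ _)).trans hNN0
  have hN1' : N1 ≤ N := ((le_max_right _ _).trans (le_max_left _ _)).trans hNN0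
  have hN1'' : 1 ≤ N := (le_max_right _ _).trans hNN0
  obtain ⟨h3, h4⟩ := hN1 N hN1'
  refine (measure_mono ?_).trans ((hN0 N (k N) hN0' h3 h4).trans hηe)
  intro ω hω
  simp only [Set.mem_ofPred_eq] at hω ⊢
  refine ⟨π N ω, hπ N hN1'' ω, ?_⟩
  intro hcon
  have h5 : 15 * min (δ / 15) (1 / 2) ≤ δ := by
    have := min_le_left (δ / 15) (1 / 2 : ℝ)
    linarith
  linarith

end Pool.Agent.Helper98.EX
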