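import Pool.Agent.Helper98.EY.StmtsC
import Pool.Agent.Helper53.EX.GS

set_option autoImplicit false

/-!
# Module SEN : streaming conditions at auxiliary interfaces
-/

namespace Pool.Agent.Helper98.EX

open Finset

theorem sen_sum {N : ℕ} {f g : ℕ → ℝ} {C : ℝ} (hN : 1 ≤ N)
    (hfg : ∀ y, y < N - 1 → f y ≤ g y + 1) (hg : ∀ y, y + 1 < N → 0 ≤ g y)
    (hs : ∑ y ∈ Finset.range (N - 1), g y ≤ C * N) :
    ∑ y ∈ Finset.range (N - 1), f y ≤ (C + 1) * N := by
  have h := gs_sum_atl (N := N) (f := f) (g := g) (C := C) (m := N - 1) (by omega) hfg hg hs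
  rwa [← Finset.range_eq_Ico] at h

theorem st_SEN (_h : ST_CAPM) : ST_SEN := by
  refine ⟨2, ?_⟩
  intro N k r l w m0 η0 as γ Cs C1 c1 e0 hN2 hη G
  obtain ⟨a, haN⟩ : ∃ a : ℝ, a = N := ⟨_, rfl⟩
  have ha : 2 ≤ a := by rw [haN]; exact_mod_cast hN2
  have ha0 : (0 : ℝ) < a := by linarith
  have ha1 : (1 : ℝ) ≤ a := by linarith
  have pw : ∀ n : ℕ, (N : ℝ) ^ (-(n : ℝ)) = (a ^ n)⁻¹ := by
    intro n
    rw [← haN, Real.rpow_neg ha0.le, Real.rpow_natCast]
  have p100 : (N : ℝ) ^ (-100 : ℝ) = (a ^ 100)⁻¹ := by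
    have := pw 100; push_cast at this; exact this
  have p2 : (N : ℝ) ^ (-2 : ℝ) = (a ^ 2)⁻¹ := by
    have := pw 2; push_cast at this; exact this
  have p12 : (N : ℝ) ^ (-12 : ℝ) = (a ^ 12)⁻¹ := by
    have := pw 12; push_cast at this; exact this
  have p11 : (N : ℝ) ^ (-11 : ℝ) = (a ^ 11)⁻¹ := by
    have := pw 11; push_cast at this; exact this
  have q2 : (N : ℝ) ^ (2 : ℝ) = a ^ 2 := by
    rw [← haN, ← Real.rpow_natCast]; norm_num
  have hmod : modl N l = fun y => max (l y) (a ^ 100)⁻¹ := by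
    funext y
    unfold modl
    rw [p100]
  have hr2 : ∀ x, 1 ≤ x → x < N → (a ^ 2)⁻¹ ≤ r x := by
    intro x h1 h2
    rw [← p2]
    exact G.rlow2 x h1 h2
  have hub : ∀ z x, z ≤ x → x < N → RR r l z x ≤ a ^ 2 := by
    intro z x h1 h2
    rw [← q2]
    exact G.rub z x h1 h2
  have hR : ∀ z x, z ≤ x → x < N → RR r (modl N l) z x ≤ RR r l z x + (a ^ 90)⁻¹ := by
    intro z x h1 h2
    rw [hmod]
    exact gs_key ha G.adm hr2 hub z x h1 h2
  have hRm : ∀ z x, z ≤ x → x < N → RR (mirr N r) (mirr N (modl N l)) z x ≤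
      RR (mirr N r) (mirr N l) z x + (a ^ 90)⁻¹ := by
    intro z x h1 h2
    rw [gs_RR_mirr _ _ h2 h1, gs_RR_mirr _ _ h2 h1]
    exact hR _ _ (by omega) (by omega)
  have hw1 := G.w1
  have htiny : (1 + η0) ^ (w + 1) ≤ a := by rw [haN]; exact G.tiny
  have hl1 : ∀ y, y + 1 < N → atl r (modl N l) η0 w y ≤ atl r l η0 w y + 1 := by
    intro y hy
    exact gs_atl ha haN hη (hr2 _ (by omega) hy) htiny hy hR
  have hl2 : ∀ y, y + 1 < N → atl (mirr N r) (mirr N (modl N l)) η0 w y ≤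
      atl (mirr N r) (mirr N l) η0 w y + 1 := by
    intro y hy
    refine gs_atl ha haN hη ?_ htiny hy hRm
    unfold mirr
    exact hr2 _ (by omega) (by omega)
  have h90 : (a ^ 90)⁻¹ ≤ (a ^ 12)⁻¹ := by
    apply inv_anti₀ (by positivity)
    exact pow_le_pow_right₀ ha1 (by norm_num)
  refine ⟨?_, ?_, ?_⟩
  · intro y hy
    have h1 := hl1 y hy
    have h2 := G.at_l y hy
    have h3 := hl2 y hy
    have h4 := G.at_r y hy
    constructor <;> linarith
  · constructor
    · exact sen_sum (by omega) (fun y hy => hl1 y (by omega))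
        (fun y hy => gs_atl_nonneg G.adm hη hy) G.suml
    · exact sen_sum (by omega) (fun y hy => hl2 y (by omega))
        (fun y hy => gs_atl_nonneg (gs_adm_mirr G.adm) hη hy) G.sumr
  · intro A x0 B S hA hB hBN hx0
    refine ⟨?_, ?_, ?_, G.tiny, hw1, G.wlog, hA, hB, by omega, ?_, ?_, S.near, S.rlow, S.zs⟩
    · -- adm
      intro x h1 h2
      obtain ⟨g1, g2, g3, g4⟩ := G.adm x h1 h2
      refine ⟨g1, g2, ?_, ?_⟩
      · exact le_max_of_le_left g3
      · refine max_le g4 ?_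
        rw [p100]
        exact inv_le_one_of_one_le₀ (one_le_pow₀ ha1)
    · -- low
      intro x _ _
      exact le_max_right _ _
    · -- far
      intro z x h1 h2
      have i1 := hR z x (by omega) h2
      have i2 := G.far z x h1 h2
      rw [p12] at i2
      rw [p11]
      have i3 : 2 * (a ^ 12)⁻¹ ≤ (a ^ 11)⁻¹ := by
        have e : (a ^ 11)⁻¹ = a * (a ^ 12)⁻¹ := by field_simp
        rw [e]
        exact mul_le_mul_of_nonneg_right ha (by positivity)
      linarith
    · -- at_l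
      intro y _ hy
      have := hl1 y (by omega)
      have := G.at_l y (by omega)
      linarith
    · -- at_r
      intro y _ hy
      have := hl2 y (by omega)
      have := G.at_r y (by omega)
      linarith

end Pool.Agent.Helper98.EX
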